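import Pool.Agent.Work.MP_e17eac_co.HSR.One

/-!
# Radii: iteration and the final theorem
-/

set_option linter.unusedSectionVars false

namespace Pool.Agent.Work.MP_e17eac_co.HSR

open Finset

theorem iter (cR cL : ℕ → ℕ) (G0 : ℕ) : ∀ m' : ℕ, ∃ G C g' : ℕ,
    ∀ (ι : Type) [Fintype ι] [DecidableEq ι] (X : Dat ι) (m : ℕ), m' ≤ m →
      Inp cR cL G0 m G X → ∃ E' ⊆ X.E, X.N ≤ X.b ^ g' * (E'.card : ℝ) ∧
        ∀ z, 1 ≤ z → z ≤ m' → Low X z E' C := by
  intro m'
  induction m' with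
  | zero =>
    refine ⟨0, 0, G0, fun ι _ _ X m _ hX => ⟨X.E, Subset.refl _, hX.dens, fun z h1 h0 => ?_⟩⟩
    omega
  | succ k ih =>
    obtain ⟨G, C, g', h⟩ := ih
    refine ⟨max G (max g' (3 * cR g' + G0 + 1)), max C (cL (3 * cR g' + G0 + 1)),
      2 * cR g' + G0 + 1, fun ι _ _ X m hm hX => ?_⟩
    obtain ⟨E', hE', hd, hlow⟩ := h ι X m (by omega) (hX.mono (le_max_left _ _))
    have hb1 : 1 ≤ X.b := le_trans (by norm_num) hX.b16
    obtain ⟨E'', hE'', hd'', hlow''⟩ := step hX (g := g') (z := k + 1) (by omega) hm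
      ((le_max_left _ _).trans (le_max_right _ _))
      ((le_max_right _ _).trans (le_max_right _ _)) hE' hd
    refine ⟨E'', hE''.trans hE', hd'', fun z hz1 hzk => ?_⟩
    rcases Nat.lt_or_ge z (k + 1) with hlt | hge
    · exact (hlow z hz1 (by omega)).mono hb1 hE'' (le_max_left _ _)
    · have : z = k + 1 := by omega
      subst this
      exact hlow''.mono hb1 (Subset.refl _) (le_max_right _ _)

theorem conv_bd {α β s0 e0 s M : ℝ} (h0 : |α + β * s0| ≤ M) (h1 : |α + β * e0| ≤ M)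
    (hs0 : s0 ≤ s) (hs1 : s ≤ e0) : |α + β * s| ≤ M := by
  rw [abs_le] at *
  rcases le_total 0 β with hβ | hβ
  · constructor
    · have := mul_le_mul_of_nonneg_left hs0 hβ
      linarith
    · have := mul_le_mul_of_nonneg_left hs1 hβ
      linarith
  · constructor
    · have := mul_le_mul_of_nonpos_left hs1 hβ
      linarith
    · have := mul_le_mul_of_nonpos_left hs0 hβ
      linarith

/-- **The radii theorem.** -/
theorem stRadii : StRadii := by
  intro cR cL G0 m
  obtain ⟨G, C, g', h⟩ := iter cR cL G0 m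
  set c := cR g' with hc
  set gg := 2 * c + G0 + 2 with hgg
  refine ⟨max G (max g' gg), max C gg, fun ι _ _ X hX => ?_⟩
  classical
  obtain ⟨E', hE', hd, hlow⟩ := h ι X m le_rfl (hX.mono (le_max_left _ _))
  have hb : (0 : ℝ) < X.b := lt_of_lt_of_le (by norm_num) hX.b16
  have hb1 : (1 : ℝ) ≤ X.b := le_trans (by norm_num) hX.b16
  have hn0 : (0 : ℝ) ≤ X.n := le_trans (Nat.cast_nonneg _) hX.card
  have hNpos := hX.N0
  have hQ := hX.Q1
  obtain ⟨E1, E2, h1', h2', hrp, hsd, hmany⟩ := hX.root g'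
    ((le_max_left _ _).trans (le_max_right _ _)) E' hE' hd
  have h1 : E1 ⊆ X.E := h1'.trans hE'
  have h2 : E2 ⊆ X.E := h2'.trans hE'
  have h12' : E1 ∪ E2 ⊆ E' := union_subset h1' h2'
  have h12 : E1 ∪ E2 ⊆ X.E := union_subset h1 h2
  rw [← hc] at hsd hmany
  set A : ℝ := X.b ^ c with hA
  have hA0 : 0 < A := by positivity
  set P := (E1 ∪ E2).image X.a with hP
  have hPmem : ∀ p ∈ P, X.N ≤ A * X.n * ((on X.a E1 p).card : ℝ) ∧
      X.N ≤ A * X.n * ((on X.a E2 p).card : ℝ) := by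
    intro p hp
    rw [hP, mem_image] at hp
    obtain ⟨i, hi, rfl⟩ := hp
    exact hsd i hi
  have hPmany : X.n ≤ X.b ^ (c + G0) * (P.card : ℝ) := lines_many hX h12 hmany
  have hne12 : (E1 ∪ E2).Nonempty := by
    rw [nonempty_iff_ne_empty]
    intro h0
    rw [h0] at hmany
    simp only [card_empty, Nat.cast_zero, mul_zero] at hmany
    linarith
  have hPne : P.Nonempty := hne12.image _
  have hnpos : 0 < X.n := by
    obtain ⟨p, hp⟩ := hPne
    obtain ⟨q1, _⟩ := hPmem p hp
    by_contra hcon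
    have : X.n = 0 := le_antisymm (not_lt.1 hcon) hn0
    rw [this] at q1
    simp only [mul_zero, zero_mul] at q1
    linarith
  have hne : ∀ E0 : Finset ℕ, ∀ p, X.N ≤ A * X.n * ((on X.a E0 p).card : ℝ) →
      (on X.a E0 p).Nonempty := by
    intro E0 p h
    rw [nonempty_iff_ne_empty]
    intro h0
    rw [h0] at h
    simp only [card_empty, Nat.cast_zero, mul_zero] at h
    linarith
  -- quantiles
  set κ : ℝ := 1 / X.b ^ (c + G0 + 2) with hκ
  have hκ0 : 0 < κ := by positivity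
  have hκ1 : κ ≤ 1 := by
    rw [hκ, div_le_one (by positivity)]
    exact one_le_pow₀ hb1
  have hq : ∀ z p, ∃ i0, p ∈ P → i0 ∈ on X.a (E1 ∪ E2) p ∧
      κ * ((on X.a (E1 ∪ E2) p).card : ℝ) ≤
        (((on X.a (E1 ∪ E2) p).filter (fun i => X.rho z i0 ≤ X.rho z i)).card : ℝ) ∧
      (((on X.a (E1 ∪ E2) p).filter (fun i => X.rho z i0 < X.rho z i)).card : ℝ) ≤
        κ * ((on X.a (E1 ∪ E2) p).card : ℝ) := by
    intro z p
    by_cases hp : p ∈ P
    · have hh : (on X.a (E1 ∪ E2) p).Nonempty :=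
        (hne E1 p (hPmem p hp).1).mono (on_mono subset_union_left p)
      obtain ⟨i0, h0, h1, h2⟩ := quant (on X.a (E1 ∪ E2) p) (X.rho z) κ hκ0 hκ1 hh
      exact ⟨i0, fun _ => ⟨h0, h1, h2⟩⟩
    · exact ⟨0, fun h' => absurd h' hp⟩
  choose iq hiq using hq
  set rt : ℕ → ι → ℝ := fun z p => X.rho z (iq z p) with hrt
  set F : ℕ → Finset ℕ := fun z => (E1 ∪ E2).filter (fun i => rt z (X.a i) ≤ X.rho z i) with hF
  set Y : ℕ → Finset ι := fun z => P.filter (fun p => X.U z <
    ((X.P0.filter (fun r => ∀ i ∈ on X.a (F z) p, r ∈ X.Rs z i)).card : ℝ)) with hY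
  have honF : ∀ z p, on X.a (F z) p =
      (on X.a (E1 ∪ E2) p).filter (fun i => X.rho z (iq z p) ≤ X.rho z i) := by
    intro z p
    ext i
    constructor
    · intro h
      have h' := mem_on.1 h
      have h'' := mem_filter.1 h'.1
      have h3 := h''.2
      rw [h'.2] at h3
      exact mem_filter.2 ⟨mem_on.2 ⟨h''.1, h'.2⟩, h3⟩
    · intro h
      have h' := mem_filter.1 h
      have h'' := mem_on.1 h'.1
      refine mem_on.2 ⟨mem_filter.2 ⟨h''.1, ?_⟩, h''.2⟩
      rw [h''.2]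
      exact h'.2
  have hYfew : ∀ z, 1 ≤ z → z ≤ m → X.b ^ gg * ((Y z).card : ℝ) < X.n := by
    intro z hz1 hzm
    by_contra hcon
    push Not at hcon
    obtain ⟨p, hp, hU⟩ := hX.p2 gg ((le_max_right _ _).trans (le_max_right _ _)) z hz1 hzm (F z)
      ((filter_subset _ _).trans h12) (Y z) (by
        intro p hp
        have hpP : p ∈ P := (mem_filter.1 hp).1
        rw [honF]
        have hl := (hiq z p hpP).2.1
        have hsub : ((on X.a E1 p).card : ℝ) ≤ ((on X.a (E1 ∪ E2) p).card : ℝ) := by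
          exact_mod_cast card_le_card (on_mono subset_union_left p)
        have e : X.b ^ gg = A * X.b ^ (c + G0 + 2) := by
          rw [hA, hgg, ← pow_add]
          congr 1
          omega
        have hB0 : (0 : ℝ) < X.b ^ (c + G0 + 2) := by positivity
        calc X.N ≤ A * X.n * ((on X.a E1 p).card : ℝ) := (hPmem p hpP).1
          _ ≤ A * X.n * ((on X.a (E1 ∪ E2) p).card : ℝ) :=
              mul_le_mul_of_nonneg_left hsub (by positivity)
          _ = A * X.b ^ (c + G0 + 2) * X.n * (κ * ((on X.a (E1 ∪ E2) p).card : ℝ)) := by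
              rw [hκ]
              field_simp
          _ ≤ A * X.b ^ (c + G0 + 2) * X.n *
            (((on X.a (E1 ∪ E2) p).filter (fun i => X.rho z (iq z p) ≤ X.rho z i)).card : ℝ) :=
              mul_le_mul_of_nonneg_left hl (by positivity)
          _ = _ := by rw [e]) hcon
    exact absurd (mem_filter.1 hp).2 (not_lt.2 hU)
  set NY : ι → Prop := fun p => ∀ z ∈ Icc 1 m, p ∉ Y z with hNY
  set PG := P.filter NY with hPG
  have hPGmany : (P.card : ℝ) / 2 ≤ (PG.card : ℝ) := by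
    have e : PG.card + (P.filter (fun p => ¬ NY p)).card = P.card :=
      card_filter_add_card_filter_not _
    have e2 : (P.filter (fun p => ¬ NY p)).card ≤
        ∑ z ∈ Icc 1 m, (Y z).card := by
      refine le_trans (card_le_card ?_) card_biUnion_le
      intro p hp
      have hp' := (mem_filter.1 hp).2
      rw [hNY] at hp'
      push Not at hp'
      obtain ⟨z, hz, hpz⟩ := hp'
      exact mem_biUnion.2 ⟨z, hz, hpz⟩
    have e' : (PG.card : ℝ) + ((P.filter (fun p => ¬ NY p)).card : ℝ) =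
        (P.card : ℝ) := by exact_mod_cast e
    have e2' : ((P.filter (fun p => ¬ NY p)).card : ℝ) ≤
        ∑ z ∈ Icc 1 m, ((Y z).card : ℝ) := by exact_mod_cast e2
    have e3 : X.b ^ gg * ∑ z ∈ Icc 1 m, ((Y z).card : ℝ) ≤ (m : ℝ) * X.n := by
      rw [Finset.mul_sum]
      calc ∑ z ∈ Icc 1 m, X.b ^ gg * ((Y z).card : ℝ) ≤ ∑ z ∈ Icc 1 m, X.n := by
            apply Finset.sum_le_sum
            intro z hz
            rw [mem_Icc] at hz
            exact (hYfew z hz.1 hz.2).le
        _ = (m : ℝ) * X.n := by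
            rw [Finset.sum_const, nsmul_eq_mul, Nat.card_Icc]
            simp
    have e4 : X.b ^ gg = X.b ^ (c + G0) * (X.b ^ 2 * A) := by
      rw [hA, hgg]
      ring
    have hA1 : 1 ≤ A := one_le_pow₀ hb1
    have hB0 : (0 : ℝ) < X.b ^ (c + G0) := by positivity
    set T : ℝ := ∑ z ∈ Icc 1 m, ((Y z).card : ℝ) with hT
    have hT0 : 0 ≤ T := Finset.sum_nonneg (fun _ _ => Nat.cast_nonneg _)
    have hmb := hX.bm
    have e5 : X.b ^ (c + G0) * (X.b * (X.b * T)) ≤
        X.b ^ (c + G0) * (X.b * (P.card : ℝ)) := by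
      calc X.b ^ (c + G0) * (X.b * (X.b * T)) = X.b ^ (c + G0) * (X.b ^ 2 * 1) * T := by ring
        _ ≤ X.b ^ (c + G0) * (X.b ^ 2 * A) * T := by
            apply mul_le_mul_of_nonneg_right _ hT0
            apply mul_le_mul_of_nonneg_left _ hB0.le
            exact mul_le_mul_of_nonneg_left hA1 (by positivity)
        _ = X.b ^ gg * T := by rw [e4]
        _ ≤ (m : ℝ) * X.n := e3
        _ ≤ X.b * X.n := mul_le_mul_of_nonneg_right hmb hn0
        _ ≤ X.b * (X.b ^ (c + G0) * (P.card : ℝ)) := mul_le_mul_of_nonneg_left hPmany hb.le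
        _ = _ := by ring
    have e6 := le_of_mul_le_mul_left (le_of_mul_le_mul_left e5 hB0) hb
    have hb16 := hX.b16
    have e7 : 16 * T ≤ (P.card : ℝ) := le_trans (mul_le_mul_of_nonneg_right hb16 hT0) e6
    linarith
  -- the final sets
  set Rem : ℕ → Prop := fun i => ∀ z ∈ Icc 1 m, X.rho z i ≤ rt z (X.a i) with hRem
  set F1 := E1.filter (fun i => X.a i ∈ PG ∧ Rem i) with hF1
  set F2 := E2.filter (fun i => X.a i ∈ PG ∧ Rem i) with hF2
  have hF1s : F1 ⊆ E1 := filter_subset _ _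
  have hF2s : F2 ⊆ E2 := filter_subset _ _
  have hside : ∀ E0 : Finset ℕ, E0 ⊆ E1 ∪ E2 → ∀ p ∈ PG,
      X.N ≤ A * X.n * ((on X.a E0 p).card : ℝ) →
      X.N ≤ 2 * A * X.n * ((on X.a (E0.filter (fun i => X.a i ∈ PG ∧ Rem i)) p).card : ℝ) := by
    intro E0 hE0 p hp hN
    have hpP : p ∈ P := (mem_filter.1 hp).1
    have s1 : (on X.a E0 p).card ≤ (on X.a (E0.filter (fun i => X.a i ∈ PG ∧ Rem i)) p).card +
        ∑ z ∈ Icc 1 m, ((on X.a (E1 ∪ E2) p).filter
          (fun i => X.rho z (iq z p) < X.rho z i)).card := by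
      have : on X.a E0 p ⊆ (on X.a (E0.filter (fun i => X.a i ∈ PG ∧ Rem i)) p) ∪
          (Icc 1 m).biUnion (fun z => (on X.a (E1 ∪ E2) p).filter
            (fun i => X.rho z (iq z p) < X.rho z i)) := by
        intro i hi
        rw [mem_on] at hi
        by_cases hr : Rem i
        · apply mem_union_left
          rw [mem_on, mem_filter, hi.2]
          exact ⟨⟨hi.1, hp, hr⟩, rfl⟩
        · apply mem_union_right
          rw [hRem] at hr
          push Not at hr
          obtain ⟨z, hz, hlt⟩ := hr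
          rw [mem_biUnion]
          refine ⟨z, hz, ?_⟩
          rw [mem_filter, mem_on]
          refine ⟨⟨hE0 hi.1, hi.2⟩, ?_⟩
          rw [hrt, hi.2] at hlt
          exact hlt
      refine (card_le_card this).trans ((card_union_le _ _).trans ?_)
      exact Nat.add_le_add_left card_biUnion_le _
    have s2 : (∑ z ∈ Icc 1 m, (((on X.a (E1 ∪ E2) p).filter
          (fun i => X.rho z (iq z p) < X.rho z i)).card : ℝ)) ≤
        (m : ℝ) * (κ * ((on X.a (E1 ∪ E2) p).card : ℝ)) := by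
      calc (∑ z ∈ Icc 1 m, (((on X.a (E1 ∪ E2) p).filter
          (fun i => X.rho z (iq z p) < X.rho z i)).card : ℝ)) ≤
          ∑ z ∈ Icc 1 m, κ * ((on X.a (E1 ∪ E2) p).card : ℝ) := by
            apply Finset.sum_le_sum
            intro z _
            exact (hiq z p hpP).2.2
        _ = _ := by
            rw [Finset.sum_const, nsmul_eq_mul, Nat.card_Icc]
            simp
    have s3 : ((on X.a (E1 ∪ E2) p).card : ℝ) * X.n ≤ X.b ^ G0 * X.N := by
      refine le_trans ?_ (hX.deg p)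
      apply mul_le_mul_of_nonneg_right _ hn0
      exact_mod_cast card_le_card (on_mono h12 p)
    have s1' : ((on X.a E0 p).card : ℝ) ≤
        ((on X.a (E0.filter (fun i => X.a i ∈ PG ∧ Rem i)) p).card : ℝ) +
        ∑ z ∈ Icc 1 m, (((on X.a (E1 ∪ E2) p).filter
          (fun i => X.rho z (iq z p) < X.rho z i)).card : ℝ) := by exact_mod_cast s1
    have hm0 : (0 : ℝ) ≤ (m : ℝ) := Nat.cast_nonneg _
    have s4 : A * X.n * ((m : ℝ) * (κ * ((on X.a (E1 ∪ E2) p).card : ℝ))) ≤ X.N / 2 := by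
      have hmb := hX.bm
      have hb16 := hX.b16
      have k1 : A * X.n * ((m : ℝ) * (κ * ((on X.a (E1 ∪ E2) p).card : ℝ))) =
          A * (m : ℝ) * κ * (((on X.a (E1 ∪ E2) p).card : ℝ) * X.n) := by ring
      rw [k1]
      calc A * (m : ℝ) * κ * (((on X.a (E1 ∪ E2) p).card : ℝ) * X.n)
          ≤ A * (m : ℝ) * κ * (X.b ^ G0 * X.N) :=
            mul_le_mul_of_nonneg_left s3 (by positivity)
        _ ≤ A * X.b * κ * (X.b ^ G0 * X.N) := by
            apply mul_le_mul_of_nonneg_right _ (by positivity)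
            apply mul_le_mul_of_nonneg_right _ hκ0.le
            exact mul_le_mul_of_nonneg_left hmb hA0.le
        _ = X.N / X.b := by
            rw [hκ, hA]
            field_simp
            ring
        _ ≤ X.N / 2 := by
            apply div_le_div_of_nonneg_left hNpos.le (by norm_num)
            linarith
    have s5 : X.N ≤ A * X.n *
        ((on X.a (E0.filter (fun i => X.a i ∈ PG ∧ Rem i)) p).card : ℝ) + X.N / 2 := by
      calc X.N ≤ A * X.n * ((on X.a E0 p).card : ℝ) := hN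
        _ ≤ A * X.n * (((on X.a (E0.filter (fun i => X.a i ∈ PG ∧ Rem i)) p).card : ℝ) +
          (m : ℝ) * (κ * ((on X.a (E1 ∪ E2) p).card : ℝ))) := by
            apply mul_le_mul_of_nonneg_left _ (by positivity)
            linarith
        _ = A * X.n * ((on X.a (E0.filter (fun i => X.a i ∈ PG ∧ Rem i)) p).card : ℝ) +
          A * X.n * ((m : ℝ) * (κ * ((on X.a (E1 ∪ E2) p).card : ℝ))) := by ring
        _ ≤ _ := by linarith
    linarith
  have hsidePG : ∀ p ∈ PG, X.N ≤ 2 * A * X.n * ((on X.a F1 p).card : ℝ) ∧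
      X.N ≤ 2 * A * X.n * ((on X.a F2 p).card : ℝ) := by
    intro p hp
    have hpP : p ∈ P := (mem_filter.1 hp).1
    exact ⟨hside E1 subset_union_left p hp (hPmem p hpP).1,
      hside E2 subset_union_right p hp (hPmem p hpP).2⟩
  have hle2 : ∀ x : ℝ, 0 ≤ x → 2 * A * X.n * x ≤ X.b ^ (max C gg) * X.n * x := by
    intro x hx
    apply mul_le_mul_of_nonneg_right _ hx
    apply mul_le_mul_of_nonneg_right _ hn0
    calc 2 * A ≤ X.b * A := mul_le_mul_of_nonneg_right (by linarith [hX.b16]) hA0.le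
      _ = X.b ^ (c + 1) := by rw [hA]; ring
      _ ≤ X.b ^ (max C gg) := pow_le_pow_right₀ hb1 (le_trans (by omega) (le_max_right _ _))
  have hFmem : ∀ i ∈ F1 ∪ F2, i ∈ E1 ∪ E2 ∧ X.a i ∈ PG ∧ Rem i := by
    intro i hi
    rcases mem_union.1 hi with hi | hi
    · have := mem_filter.1 hi
      exact ⟨mem_union_left _ this.1, this.2⟩
    · have := mem_filter.1 hi
      exact ⟨mem_union_right _ this.1, this.2⟩
  -- base interval
  obtain ⟨i0, hi0, hmin⟩ := (E1 ∪ E2).exists_min_image X.lo hne12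
  obtain ⟨j0, hj0, hmax⟩ := (E1 ∪ E2).exists_max_image X.hi hne12
  have hE1ne : E1.Nonempty := by
    obtain ⟨p, hp⟩ := hPne
    obtain ⟨i, hi⟩ := hne E1 p (hPmem p hp).1
    exact ⟨i, (mem_on.1 hi).1⟩
  have hE2ne : E2.Nonempty := by
    obtain ⟨p, hp⟩ := hPne
    obtain ⟨i, hi⟩ := hne E2 p (hPmem p hp).2
    exact ⟨i, (mem_on.1 hi).1⟩
  have hi0E1 : i0 ∈ E1 := by
    rcases mem_union.1 hi0 with h | h
    · exact h
    · obtain ⟨i, hi⟩ := hE1ne
      have e1 := hrp.1 i hi i0 h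
      have e2 := hmin i (mem_union_left _ hi)
      have e3 := hX.lohi i (h1 hi)
      linarith
  have hj0E2 : j0 ∈ E2 := by
    rcases mem_union.1 hj0 with h | h
    · obtain ⟨j, hj⟩ := hE2ne
      have e1 := hrp.1 j0 h j hj
      have e2 := hmax j (mem_union_right _ hj)
      have e3 := hX.lohi j (h2 hj)
      linarith
    · exact h
  have hchoose : ∀ z, ∃ rm : ι → ℝ, 1 ≤ z → z ≤ m → ∀ i ∈ E', 0 < rm (X.a i) ∧
      rm (X.a i) ≤ 3 * X.Q * X.rho z i ∧
      X.L z ≤ X.b ^ C * (massE X E' (X.a i) (rm (X.a i)) : ℝ) := by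
    intro z
    by_cases hz : 1 ≤ z ∧ z ≤ m
    · obtain ⟨rm, hrm⟩ := hlow z hz.1 hz.2
      exact ⟨rm, fun _ _ => hrm⟩
    · exact ⟨fun _ => 0, fun h1 h2 => absurd ⟨h1, h2⟩ hz⟩
  choose rm hrm using hchoose
  refine ⟨F1, F2, X.lo i0, X.hi j0, rm, rt, ?_⟩
  constructor
  · exact hF1s.trans h1
  · exact hF2s.trans h2
  · exact ⟨fun i hi j hj => hrp.1 i (hF1s hi) j (hF2s hj), fun i hi i' hi' j hj j' hj' =>
      hrp.2 i (hF1s hi) i' (hF1s hi') j (hF2s hj) j' (hF2s hj')⟩
  · constructor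
    · intro i hi
      obtain ⟨_, hp, _⟩ := hFmem i hi
      obtain ⟨q1, q2⟩ := hsidePG _ hp
      exact ⟨q1.trans (hle2 _ (Nat.cast_nonneg _)), q2.trans (hle2 _ (Nat.cast_nonneg _))⟩
    · have e1 : (∑ p ∈ PG, (on X.a F1 p).card) ≤ (F1 ∪ F2).card := by
        rw [← card_biUnion]
        · apply card_le_card
          intro i hi
          rw [mem_biUnion] at hi
          obtain ⟨p, _, hi⟩ := hi
          exact mem_union_left _ (mem_on.1 hi).1
        · intro p _ p' _ hpp
          rw [Function.onFun, disjoint_left]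
          intro i hi hi'
          exact hpp ((mem_on.1 hi).2.symm.trans (mem_on.1 hi').2)
      have e1' : (∑ p ∈ PG, ((on X.a F1 p).card : ℝ)) ≤ ((F1 ∪ F2).card : ℝ) := by
        exact_mod_cast e1
      have hsum : (PG.card : ℝ) * X.N ≤ 2 * A * X.n * ((F1 ∪ F2).card : ℝ) := by
        calc (PG.card : ℝ) * X.N = ∑ p ∈ PG, X.N := by rw [Finset.sum_const, nsmul_eq_mul]
          _ ≤ ∑ p ∈ PG, 2 * A * X.n * ((on X.a F1 p).card : ℝ) :=
              Finset.sum_le_sum (fun p hp => (hsidePG p hp).1)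
          _ = 2 * A * X.n * ∑ p ∈ PG, ((on X.a F1 p).card : ℝ) := by rw [Finset.mul_sum]
          _ ≤ _ := mul_le_mul_of_nonneg_left e1' (by positivity)
      have k1 : X.n * X.N ≤ X.n * (X.b ^ gg * ((F1 ∪ F2).card : ℝ)) := by
        calc X.n * X.N ≤ X.b ^ (c + G0) * (P.card : ℝ) * X.N :=
              mul_le_mul_of_nonneg_right hPmany hNpos.le
          _ ≤ X.b ^ (c + G0) * (2 * (PG.card : ℝ)) * X.N := by
              apply mul_le_mul_of_nonneg_right _ hNpos.le
              apply mul_le_mul_of_nonneg_left _ (by positivity)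
              linarith
          _ = 2 * X.b ^ (c + G0) * ((PG.card : ℝ) * X.N) := by ring
          _ ≤ 2 * X.b ^ (c + G0) * (2 * A * X.n * ((F1 ∪ F2).card : ℝ)) :=
              mul_le_mul_of_nonneg_left hsum (by positivity)
          _ = X.n * ((X.b ^ (c + G0) * A * 4) * ((F1 ∪ F2).card : ℝ)) := by ring
          _ ≤ X.n * ((X.b ^ (c + G0) * A * X.b ^ 2) * ((F1 ∪ F2).card : ℝ)) := by
              apply mul_le_mul_of_nonneg_left _ hn0
              apply mul_le_mul_of_nonneg_right _ (Nat.cast_nonneg _)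
              apply mul_le_mul_of_nonneg_left _ (by positivity)
              nlinarith [hX.b16]
          _ = X.n * (X.b ^ gg * ((F1 ∪ F2).card : ℝ)) := by
              rw [hA, hgg]
              ring
      refine (le_of_mul_le_mul_left k1 hnpos).trans ?_
      apply mul_le_mul_of_nonneg_right _ (Nat.cast_nonneg _)
      exact pow_le_pow_right₀ hb1 (le_max_right _ _)
  · have e1 := hrp.1 i0 hi0E1 j0 hj0E2
    have e2 := hX.lohi i0 (h12 hi0)
    have e3 := hX.lohi j0 (h12 hj0)
    linarith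
  · intro i hi
    obtain ⟨hi', _, _⟩ := hFmem i hi
    exact ⟨hmin i hi', hmax i hi'⟩
  · intro i hi j hj
    exact hrp.2 i (hF1s hi) i0 hi0E1 j (hF2s hj) j0 hj0E2
  · intro z hz1 hzm i hi
    obtain ⟨hi', _, _⟩ := hFmem i hi
    exact (hrm z hz1 hzm i (h12' hi')).1
  · intro z hz1 hzm i hi
    obtain ⟨hi', _, _⟩ := hFmem i hi
    exact (hrm z hz1 hzm i (h12' hi')).2.1
  · intro z hz1 hzm i hi
    obtain ⟨_, _, hr⟩ := hFmem i hi
    exact hr z (mem_Icc.2 ⟨hz1, hzm⟩)
  · intro z hz1 hzm i hi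
    obtain ⟨hi', _, _⟩ := hFmem i hi
    refine (hrm z hz1 hzm i (h12' hi')).2.2.trans ?_
    have e1 : X.b ^ C ≤ X.b ^ (max C gg) := pow_le_pow_right₀ hb1 (le_max_left _ _)
    have e2 : massE X E' (X.a i) (rm z (X.a i)) ≤
        massI X (X.lo i0) (X.hi j0) (X.a i) (rm z (X.a i)) := by
      unfold massE massI
      apply card_le_card
      intro r hr
      rw [mem_filter] at hr ⊢
      exact ⟨hr.1, (hr.2 i0 (h12' hi0)).1, (hr.2 j0 (h12' hj0)).2⟩
    have e2' : (massE X E' (X.a i) (rm z (X.a i)) : ℝ) ≤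
        (massI X (X.lo i0) (X.hi j0) (X.a i) (rm z (X.a i)) : ℝ) := by exact_mod_cast e2
    exact mul_le_mul e1 e2' (Nat.cast_nonneg _) (by positivity)
  · intro z hz1 hzm i hi
    obtain ⟨hi', hp, _⟩ := hFmem i hi
    have hp' := (mem_filter.1 hp).2 z (mem_Icc.2 ⟨hz1, hzm⟩)
    have hpP := (mem_filter.1 hp).1
    have hU : ((X.P0.filter (fun r => ∀ k ∈ on X.a (F z) (X.a i), r ∈ X.Rs z k)).card : ℝ) ≤
        X.U z := by
      by_contra hcon
      push Not at hcon
      exact hp' (mem_filter.2 ⟨hpP, hcon⟩)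
    refine le_trans ?_ hU
    have : massI X (X.lo i0) (X.hi j0) (X.a i) ((X.Th - 1) * rt z (X.a i)) ≤
        (X.P0.filter (fun r => ∀ k ∈ on X.a (F z) (X.a i), r ∈ X.Rs z k)).card := by
      unfold massI
      apply card_le_card
      intro r hr
      rw [mem_filter] at hr ⊢
      refine ⟨hr.1, fun k hk => ?_⟩
      rw [mem_on, hF, mem_filter] at hk
      have hkE := h12 hk.1.1
      apply hX.body z hz1 hzm k hkE r hr.1
      intro s hs0 hs1
      obtain ⟨hh1, hh2, hh3⟩ := hX.hull z hz1 hzm k hkE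
      obtain ⟨α, β, hra⟩ := hX.aff r
      obtain ⟨α', β', hpa⟩ := hX.aff (X.a i)
      have e : ∀ s, X.ht r s - X.ht (X.a i) s = (α - α') + (β - β') * s := by
        intro s
        rw [hra, hpa]
        ring
      have hr2 := hr.2
      rw [e, e] at hr2
      rw [hk.2, e]
      refine (conv_bd hr2.1 hr2.2 ?_ ?_).trans ?_
      · exact (hmin k hk.1.1).trans (hh1.trans hs0)
      · exact (hs1.trans hh3).trans (hmax k hk.1.1)
      · apply mul_le_mul_of_nonneg_left _ (by linarith [hX.Th1])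
        have := hk.1.2
        rw [hk.2] at this
        exact this
    exact_mod_cast this

end Pool.Agent.Work.MP_e17eac_co.HSR
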