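import Mathlib

/-!
# Short chain, part HS-5 (RADII): abstract interface

`E` is a finite set of edges, `a i` the line of the edge `i`, `lo i ≤ hi i` a time interval
containing all hulls of the edge `i` (levels `1 ≤ z ≤ m`), `h0 z i ≤ h1 z i` the hull of level `z`
and `rho z i` its radius. `Nn z i` = lines with the same label as `i`, `Rs z i` = lines of `P0` in
the enlarged body of the label of `i`. All losses are powers of `b`.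
-/

namespace Pool.Agent.Work.MP_e17eac_co.HSR

open Finset

variable {ι : Type} [Fintype ι] [DecidableEq ι]

/-- The edges of `E` on the line `p`. -/
def on (a : ℕ → ι) (E : Finset ℕ) (p : ι) : Finset ℕ := E.filter (fun i => a i = p)

/-- The data. -/
structure Dat (ι : Type) where
  /-- line of an edge -/
  a : ℕ → ι
  /-- the edges -/
  E : Finset ℕ
  /-- the tame lines -/
  P0 : Finset ι
  /-- height of a line at a time -/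
  ht : ι → ℝ → ℝ
  /-- start of the time interval of an edge -/
  lo : ℕ → ℝ
  /-- end of the time interval of an edge -/
  hi : ℕ → ℝ
  /-- start of the hull -/
  h0 : ℕ → ℕ → ℝ
  /-- end of the hull -/
  h1 : ℕ → ℕ → ℝ
  /-- radius of the label -/
  rho : ℕ → ℕ → ℝ
  /-- lines with the same label -/
  Nn : ℕ → ℕ → Finset ι
  /-- tame lines in the enlarged body of the label -/
  Rs : ℕ → ℕ → Finset ι
  /-- number of lines -/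
  n : ℝ
  /-- number of edges of the whole system -/
  N : ℝ
  /-- base of all losses -/
  b : ℝ
  /-- inverse of the relative gap of good pairs -/
  Q : ℝ
  /-- enlargement factor -/
  Th : ℝ
  /-- lower mass of the level `z` -/
  L : ℕ → ℝ
  /-- upper mass of the level `z` -/
  U : ℕ → ℝ

/-- A root pair: the edges of `E1` come before those of `E2`, with a large gap. -/
def RP (X : Dat ι) (E1 E2 : Finset ℕ) : Prop :=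
  (∀ i ∈ E1, ∀ j ∈ E2, X.hi i < X.lo j) ∧
  ∀ i ∈ E1, ∀ i' ∈ E1, ∀ j ∈ E2, ∀ j' ∈ E2, X.hi j' - X.lo i' ≤ X.Q * (X.lo j - X.hi i)

/-- Every line of `E1` or `E2` has many edges in both, and there are many edges. -/
def Sided (X : Dat ι) (E1 E2 : Finset ℕ) (C : ℕ) : Prop :=
  (∀ i ∈ E1 ∪ E2, X.N ≤ X.b ^ C * X.n * ((on X.a E1 (X.a i)).card : ℝ) ∧
    X.N ≤ X.b ^ C * X.n * ((on X.a E2 (X.a i)).card : ℝ)) ∧
  X.N ≤ X.b ^ C * ((E1 ∪ E2).card : ℝ)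

/-- Separated edges of level `z`. -/
def Separated (X : Dat ι) (z i j : ℕ) : Prop :=
  X.h1 z i < X.h0 z j ∧ X.h1 z i - X.h0 z i ≤ X.Q * (X.h0 z j - X.h1 z i) ∧
    X.h1 z j - X.h0 z j ≤ X.Q * (X.h0 z j - X.h1 z i)

open Classical in
/-- Number of tame lines at distance at most `s` from `p` over `[s0, e0]`. -/
noncomputable def massI (X : Dat ι) (s0 e0 : ℝ) (p : ι) (s : ℝ) : ℕ :=
  (X.P0.filter (fun r => |X.ht r s0 - X.ht p s0| ≤ s ∧ |X.ht r e0 - X.ht p e0| ≤ s)).card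

/-- The input of the radii theorem: losses of the root lemma `cR`, of the lower bound for
separated pairs `cL`; everything is used for losses at most `b ^ G` only. -/
structure Inp (cR cL : ℕ → ℕ) (G0 m G : ℕ) (X : Dat ι) : Prop where
  b16 : 16 ≤ X.b
  bm : (m : ℝ) ≤ X.b
  Q1 : 1 ≤ X.Q
  Th1 : 1 ≤ X.Th
  N0 : 0 < X.N
  card : (Fintype.card ι : ℝ) ≤ X.n
  dens : X.N ≤ X.b ^ G0 * (X.E.card : ℝ)
  deg : ∀ p, ((on X.a X.E p).card : ℝ) * X.n ≤ X.b ^ G0 * X.N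
  aff : ∀ p, ∃ α β : ℝ, ∀ s, X.ht p s = α + β * s
  hull : ∀ z, 1 ≤ z → z ≤ m → ∀ i ∈ X.E, X.lo i ≤ X.h0 z i ∧ X.h0 z i ≤ X.h1 z i ∧
    X.h1 z i ≤ X.hi i
  lohi : ∀ i ∈ X.E, X.lo i ≤ X.hi i
  rpos : ∀ z, 1 ≤ z → z ≤ m → ∀ i ∈ X.E, 0 < X.rho z i
  nsub : ∀ z, 1 ≤ z → z ≤ m → ∀ i ∈ X.E, X.Nn z i ⊆ X.P0
  near : ∀ z, 1 ≤ z → z ≤ m → ∀ i ∈ X.E, ∀ r ∈ X.Nn z i, ∀ s, X.h0 z i ≤ s → s ≤ X.h1 z i →
    |X.ht r s - X.ht (X.a i) s| ≤ X.rho z i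
  body : ∀ z, 1 ≤ z → z ≤ m → ∀ i ∈ X.E, ∀ r ∈ X.P0,
    (∀ s, X.h0 z i ≤ s → s ≤ X.h1 z i →
      |X.ht r s - X.ht (X.a i) s| ≤ (X.Th - 1) * X.rho z i) → r ∈ X.Rs z i
  root : ∀ g, g ≤ G → ∀ E' ⊆ X.E, X.N ≤ X.b ^ g * (E'.card : ℝ) →
    ∃ E1 E2 : Finset ℕ, E1 ⊆ E' ∧ E2 ⊆ E' ∧ RP X E1 E2 ∧ Sided X E1 E2 (cR g)
  lb : ∀ g, g ≤ G → ∀ z, 1 ≤ z → z ≤ m → ∀ PP : Finset (ℕ × ℕ),
    (∀ x ∈ PP, x.1 ∈ X.E ∧ x.2 ∈ X.E ∧ X.a x.1 = X.a x.2 ∧ Separated X z x.1 x.2) →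
    X.N ^ 2 ≤ X.b ^ g * X.n * (PP.card : ℝ) →
    ∃ x ∈ PP, X.L z ≤ X.b ^ (cL g) * ((X.Nn z x.1 ∩ X.Nn z x.2).card : ℝ)
  p2 : ∀ g, g ≤ G → ∀ z, 1 ≤ z → z ≤ m → ∀ F ⊆ X.E, ∀ Y : Finset ι,
    (∀ p ∈ Y, X.N ≤ X.b ^ g * X.n * ((on X.a F p).card : ℝ)) → X.n ≤ X.b ^ g * (Y.card : ℝ) →
    ∃ p ∈ Y, ((X.P0.filter (fun r => ∀ i ∈ on X.a F p, r ∈ X.Rs z i)).card : ℝ) ≤ X.U z

/-- The output: the final set of edges `E1 ∪ E2`, the base interval `[s0, e0]`, the lower radii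
`rm` and the upper radii `rt`. -/
structure Out (m C : ℕ) (X : Dat ι) (E1 E2 : Finset ℕ) (s0 e0 : ℝ) (rm rt : ℕ → ι → ℝ) :
    Prop where
  sub1 : E1 ⊆ X.E
  sub2 : E2 ⊆ X.E
  rp : RP X E1 E2
  sided : Sided X E1 E2 C
  base : s0 < e0
  ins : ∀ i ∈ E1 ∪ E2, s0 ≤ X.lo i ∧ X.hi i ≤ e0
  gap : ∀ i ∈ E1, ∀ j ∈ E2, e0 - s0 ≤ X.Q * (X.lo j - X.hi i)
  rm_pos : ∀ z, 1 ≤ z → z ≤ m → ∀ i ∈ E1 ∪ E2, 0 < rm z (X.a i)
  rm_le : ∀ z, 1 ≤ z → z ≤ m → ∀ i ∈ E1 ∪ E2, rm z (X.a i) ≤ 3 * X.Q * X.rho z i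
  le_rt : ∀ z, 1 ≤ z → z ≤ m → ∀ i ∈ E1 ∪ E2, X.rho z i ≤ rt z (X.a i)
  mass_lo : ∀ z, 1 ≤ z → z ≤ m → ∀ i ∈ E1 ∪ E2,
    X.L z ≤ X.b ^ C * (massI X s0 e0 (X.a i) (rm z (X.a i)) : ℝ)
  mass_hi : ∀ z, 1 ≤ z → z ≤ m → ∀ i ∈ E1 ∪ E2,
    (massI X s0 e0 (X.a i) ((X.Th - 1) * rt z (X.a i)) : ℝ) ≤ X.U z

/-- The radii theorem (HS-5). -/
def StRadii : Prop := ∀ (cR cL : ℕ → ℕ) (G0 m : ℕ), ∃ G C : ℕ,
  ∀ (ι : Type) [Fintype ι] [DecidableEq ι] (X : Dat ι), Inp cR cL G0 m G X →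
    ∃ (E1 E2 : Finset ℕ) (s0 e0 : ℝ) (rm rt : ℕ → ι → ℝ), Out m C X E1 E2 s0 e0 rm rt

end Pool.Agent.Work.MP_e17eac_co.HSR
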