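import Pool.Agent.Work.MP_e17eac_co.HSR.Step

/-!
# Radii: one step
-/

set_option linter.unusedSectionVars false

namespace Pool.Agent.Work.MP_e17eac_co.HSR

open Finset

variable {ι : Type} [Fintype ι] [DecidableEq ι]

theorem step {cR cL : ℕ → ℕ} {G0 m G : ℕ} {X : Dat ι} (hX : Inp cR cL G0 m G X) {g z : ℕ}
    (hz1 : 1 ≤ z) (hzm : z ≤ m) (hg : g ≤ G) (hG : 3 * cR g + G0 + 1 ≤ G) {E' : Finset ℕ}
    (hE' : E' ⊆ X.E) (hd : X.N ≤ X.b ^ g * (E'.card : ℝ)) :
    ∃ E'' ⊆ E', X.N ≤ X.b ^ (2 * cR g + G0 + 1) * (E''.card : ℝ) ∧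
      Low X z E'' (cL (3 * cR g + G0 + 1)) := by
  classical
  have hb : (0 : ℝ) < X.b := lt_of_lt_of_le (by norm_num) hX.b16
  have hn0 : (0 : ℝ) ≤ X.n := le_trans (Nat.cast_nonneg _) hX.card
  obtain ⟨E1, E2, h1', h2', hrp, hsd, hmany⟩ := hX.root g hg E' hE' hd
  have h1 : E1 ⊆ X.E := h1'.trans hE'
  have h2 : E2 ⊆ X.E := h2'.trans hE'
  set c := cR g with hc
  set P := (E1 ∪ E2).image X.a with hP
  have hPmem : ∀ p ∈ P, X.N ≤ X.b ^ c * X.n * ((on X.a E1 p).card : ℝ) ∧
      X.N ≤ X.b ^ c * X.n * ((on X.a E2 p).card : ℝ) := by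
    intro p hp
    rw [hP, mem_image] at hp
    obtain ⟨i, hi, rfl⟩ := hp
    exact hsd i hi
  have hne : ∀ E0 : Finset ℕ, ∀ p, X.N ≤ X.b ^ c * X.n * ((on X.a E0 p).card : ℝ) →
      (on X.a E0 p).Nonempty := by
    intro E0 p h
    rw [nonempty_iff_ne_empty]
    intro h0
    rw [h0] at h
    simp only [card_empty, Nat.cast_zero, mul_zero] at h
    linarith [hX.N0]
  -- quantiles
  have hq : ∀ E0 : Finset ℕ, ∀ p, ∃ i0, (on X.a E0 p).Nonempty → i0 ∈ on X.a E0 p ∧
      (1 / 4 : ℝ) * ((on X.a E0 p).card : ℝ) ≤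
        (((on X.a E0 p).filter (fun i => X.rho z i0 ≤ X.rho z i)).card : ℝ) ∧
      (((on X.a E0 p).filter (fun i => X.rho z i0 < X.rho z i)).card : ℝ) ≤
        (1 / 4 : ℝ) * ((on X.a E0 p).card : ℝ) := by
    intro E0 p
    by_cases h : (on X.a E0 p).Nonempty
    · obtain ⟨i0, h0, h1, h2⟩ := quant (on X.a E0 p) (X.rho z) (1 / 4) (by norm_num)
        (by norm_num) h
      exact ⟨i0, fun _ => ⟨h0, h1, h2⟩⟩
    · exact ⟨0, fun h' => absurd h' h⟩
  choose iq hiq using hq
  set ra : ι → ℝ := fun p => max (X.rho z (iq E1 p)) (X.rho z (iq E2 p)) with hra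
  set Good : ι → Prop := fun p => ∃ i ∈ on X.a E1 p, ∃ j ∈ on X.a E2 p, X.rho z i ≤ ra p ∧
    X.rho z j ≤ ra p ∧
    X.L z ≤ X.b ^ (cL (3 * c + G0 + 1)) * ((X.Nn z i ∩ X.Nn z j).card : ℝ) with hGood
  set PB := P.filter (fun p => ¬ Good p) with hPB
  set PG := P.filter Good with hPG
  -- few bad lines
  have hlow : ∀ E0 : Finset ℕ, ∀ p, (on X.a E0 p).Nonempty → X.rho z (iq E0 p) ≤ ra p →
      (3 / 4 : ℝ) * ((on X.a E0 p).card : ℝ) ≤
        (((on X.a E0 p).filter (fun i => X.rho z i ≤ ra p)).card : ℝ) := by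
    intro E0 p hne' hle
    obtain ⟨_, _, hb2⟩ := hiq E0 p hne'
    have e1 : ((on X.a E0 p).filter (fun i => X.rho z i ≤ ra p)).card +
        ((on X.a E0 p).filter (fun i => ¬ X.rho z i ≤ ra p)).card = (on X.a E0 p).card :=
      card_filter_add_card_filter_not _
    have e2 : ((on X.a E0 p).filter (fun i => ¬ X.rho z i ≤ ra p)).card ≤
        ((on X.a E0 p).filter (fun i => X.rho z (iq E0 p) < X.rho z i)).card := by
      apply card_le_card
      intro i hi
      rw [mem_filter] at hi ⊢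
      refine ⟨hi.1, ?_⟩
      have := hi.2
      push Not at this
      exact lt_of_le_of_lt hle this
    have e1' : (((on X.a E0 p).filter (fun i => X.rho z i ≤ ra p)).card : ℝ) +
        (((on X.a E0 p).filter (fun i => ¬ X.rho z i ≤ ra p)).card : ℝ) =
        ((on X.a E0 p).card : ℝ) := by exact_mod_cast e1
    have e2' : (((on X.a E0 p).filter (fun i => ¬ X.rho z i ≤ ra p)).card : ℝ) ≤
        (((on X.a E0 p).filter (fun i => X.rho z (iq E0 p) < X.rho z i)).card : ℝ) := by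
      exact_mod_cast e2
    linarith
  set PP : Finset (ℕ × ℕ) := PB.biUnion (fun p =>
    ((on X.a E1 p).filter (fun i => X.rho z i ≤ ra p)) ×ˢ
      ((on X.a E2 p).filter (fun i => X.rho z i ≤ ra p))) with hPP
  have hPPc : PP.card = ∑ p ∈ PB, (((on X.a E1 p).filter (fun i => X.rho z i ≤ ra p)) ×ˢ
      ((on X.a E2 p).filter (fun i => X.rho z i ≤ ra p))).card := by
    rw [hPP]
    apply card_biUnion
    intro p _ p' _ hpp
    rw [Function.onFun, disjoint_left]
    rintro ⟨i, j⟩ hi hi'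
    rw [mem_product, mem_filter, mem_filter, mem_on, mem_on] at hi hi'
    exact hpp (hi.1.1.2.symm.trans hi'.1.1.2)
  have hPBsub : ∀ p ∈ PB, p ∈ P := fun p hp => (mem_filter.1 hp).1
  set A : ℝ := X.b ^ c with hA
  have hA0 : 0 < A := by positivity
  have hPPlow : (PB.card : ℝ) * (9 / 16) * X.N ^ 2 ≤ A ^ 2 * X.n ^ 2 * (PP.card : ℝ) := by
    rw [hPPc]
    push_cast
    rw [Finset.mul_sum]
    have : ∀ p ∈ PB, (9 / 16 : ℝ) * X.N ^ 2 ≤ A ^ 2 * X.n ^ 2 *
        ((((on X.a E1 p).filter (fun i => X.rho z i ≤ ra p)) ×ˢ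
      ((on X.a E2 p).filter (fun i => X.rho z i ≤ ra p))).card : ℝ) := by
      intro p hp
      obtain ⟨q1, q2⟩ := hPmem p (hPBsub p hp)
      have l1 := hlow E1 p (hne E1 p q1) (le_max_left _ _)
      have l2 := hlow E2 p (hne E2 p q2) (le_max_right _ _)
      rw [card_product]
      push_cast
      have k1 : (3 / 4 : ℝ) * X.N ≤ A * X.n *
          (((on X.a E1 p).filter (fun i => X.rho z i ≤ ra p)).card : ℝ) := by
        calc (3 / 4 : ℝ) * X.N ≤ (3 / 4 : ℝ) * (A * X.n * ((on X.a E1 p).card : ℝ)) := by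
              linarith
          _ = A * X.n * ((3 / 4 : ℝ) * ((on X.a E1 p).card : ℝ)) := by ring
          _ ≤ _ := mul_le_mul_of_nonneg_left l1 (by positivity)
      have k2 : (3 / 4 : ℝ) * X.N ≤ A * X.n *
          (((on X.a E2 p).filter (fun i => X.rho z i ≤ ra p)).card : ℝ) := by
        calc (3 / 4 : ℝ) * X.N ≤ (3 / 4 : ℝ) * (A * X.n * ((on X.a E2 p).card : ℝ)) := by
              linarith
          _ = A * X.n * ((3 / 4 : ℝ) * ((on X.a E2 p).card : ℝ)) := by ring
          _ ≤ _ := mul_le_mul_of_nonneg_left l2 (by positivity)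
      have k0 : (0 : ℝ) ≤ (3 / 4 : ℝ) * X.N := by
        have := hX.N0
        positivity
      calc (9 / 16 : ℝ) * X.N ^ 2 = ((3 / 4 : ℝ) * X.N) * ((3 / 4 : ℝ) * X.N) := by ring
        _ ≤ (A * X.n * (((on X.a E1 p).filter (fun i => X.rho z i ≤ ra p)).card : ℝ)) *
          (A * X.n * (((on X.a E2 p).filter (fun i => X.rho z i ≤ ra p)).card : ℝ)) :=
            mul_le_mul k1 k2 k0 (k0.trans k1)
        _ = _ := by ring
    calc (PB.card : ℝ) * (9 / 16) * X.N ^ 2 = ∑ p ∈ PB, (9 / 16 : ℝ) * X.N ^ 2 := by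
          rw [Finset.sum_const, nsmul_eq_mul]
          ring
      _ ≤ ∑ p ∈ PB, A ^ 2 * X.n ^ 2 *
        ((((on X.a E1 p).filter (fun i => X.rho z i ≤ ra p)) ×ˢ
      ((on X.a E2 p).filter (fun i => X.rho z i ≤ ra p))).card : ℝ) := Finset.sum_le_sum this
      _ = _ := by
          push_cast
          rfl
  have hfew : X.b ^ (3 * c + G0 + 1) * X.n * (PP.card : ℝ) < X.N ^ 2 := by
    by_contra hcon
    push Not at hcon
    obtain ⟨x, hx, hxL⟩ := hX.lb (3 * c + G0 + 1) hG z hz1 hzm PP (by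
      intro x hx
      rw [hPP, mem_biUnion] at hx
      obtain ⟨p, hp, hx⟩ := hx
      rw [mem_product, mem_filter, mem_filter, mem_on, mem_on] at hx
      refine ⟨h1 hx.1.1.1, h2 hx.2.1.1, hx.1.1.2.trans hx.2.1.2.symm, ?_⟩
      have hi := hX.hull z hz1 hzm x.1 (h1 hx.1.1.1)
      have hj := hX.hull z hz1 hzm x.2 (h2 hx.2.1.1)
      have hlt := hrp.1 x.1 hx.1.1.1 x.2 hx.2.1.1
      have hgap := hrp.2 x.1 hx.1.1.1 x.1 hx.1.1.1 x.2 hx.2.1.1 x.2 hx.2.1.1
      have hQ := hX.Q1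
      have hmono : X.Q * (X.lo x.2 - X.hi x.1) ≤ X.Q * (X.h0 z x.2 - X.h1 z x.1) := by
        apply mul_le_mul_of_nonneg_left _ (by linarith)
        linarith [hi.2.2, hj.1]
      refine ⟨by linarith [hi.2.2, hj.1], ?_, ?_⟩
      · have : X.h1 z x.1 - X.h0 z x.1 ≤ X.hi x.2 - X.lo x.1 := by
          linarith [hi.1, hi.2.2, hX.lohi x.2 (h2 hx.2.1.1)]
        linarith
      · have : X.h1 z x.2 - X.h0 z x.2 ≤ X.hi x.2 - X.lo x.1 := by
          linarith [hj.1, hj.2.2, hX.lohi x.1 (h1 hx.1.1.1)]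
        linarith) hcon
    rw [hPP, mem_biUnion] at hx
    obtain ⟨p, hp, hx⟩ := hx
    rw [mem_product, mem_filter, mem_filter] at hx
    have hpb := (mem_filter.1 hp).2
    apply hpb
    exact ⟨x.1, hx.1.1, x.2, hx.2.1, hx.1.2, hx.2.2, hxL⟩
  -- many lines
  have hE12 : E1 ∪ E2 ⊆ X.E := union_subset h1 h2
  have hPmany : X.n ≤ X.b ^ (c + G0) * (P.card : ℝ) := lines_many hX hE12 hmany
  have hNpos := hX.N0
  have hPne : P.Nonempty := by
    rw [hP]
    apply Finset.Nonempty.image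
    rw [nonempty_iff_ne_empty]
    intro h0
    rw [h0] at hmany
    simp only [card_empty, Nat.cast_zero, mul_zero] at hmany
    linarith
  have hnpos : 0 < X.n := by
    obtain ⟨p, hp⟩ := hPne
    obtain ⟨q1, _⟩ := hPmem p hp
    by_contra hcon
    have : X.n = 0 := le_antisymm (not_lt.1 hcon) hn0
    rw [this] at q1
    simp only [mul_zero, zero_mul] at q1
    linarith
  have hPBfew : (PB.card : ℝ) ≤ (P.card : ℝ) / 2 := by
    -- b^(3c+G0+1) n |PB| 9/16 N^2 <= b^(3c+G0+1) A^2 n^3 |PP| / n ...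
    have hB : X.b ^ (3 * c + G0 + 1) = A ^ 2 * (X.b ^ (c + G0) * X.b) := by
      rw [hA]
      ring
    have k1 : X.b ^ (3 * c + G0 + 1) * ((PB.card : ℝ) * (9 / 16) * X.N ^ 2) ≤
        A ^ 2 * X.n * X.N ^ 2 := by
      calc X.b ^ (3 * c + G0 + 1) * ((PB.card : ℝ) * (9 / 16) * X.N ^ 2)
          ≤ X.b ^ (3 * c + G0 + 1) * (A ^ 2 * X.n ^ 2 * (PP.card : ℝ)) :=
            mul_le_mul_of_nonneg_left hPPlow (by positivity)
        _ = A ^ 2 * X.n * (X.b ^ (3 * c + G0 + 1) * X.n * (PP.card : ℝ)) := by ring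
        _ ≤ A ^ 2 * X.n * X.N ^ 2 := mul_le_mul_of_nonneg_left hfew.le (by positivity)
    have hN2 : (0 : ℝ) < A ^ 2 * X.N ^ 2 := by positivity
    have k2 : (A ^ 2 * X.N ^ 2) * ((X.b ^ (c + G0) * X.b) * ((PB.card : ℝ) * (9 / 16))) ≤
        (A ^ 2 * X.N ^ 2) * X.n := by
      calc (A ^ 2 * X.N ^ 2) * ((X.b ^ (c + G0) * X.b) * ((PB.card : ℝ) * (9 / 16)))
          = X.b ^ (3 * c + G0 + 1) * ((PB.card : ℝ) * (9 / 16) * X.N ^ 2) := by
            rw [hB]
            ring
        _ ≤ A ^ 2 * X.n * X.N ^ 2 := k1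
        _ = (A ^ 2 * X.N ^ 2) * X.n := by ring
    have k3 := le_of_mul_le_mul_left k2 hN2
    have hb16 := hX.b16
    have hB0 : (0 : ℝ) < X.b ^ (c + G0) := by positivity
    have k4 : X.b ^ (c + G0) * ((PB.card : ℝ) * 9) ≤ X.b ^ (c + G0) * (P.card : ℝ) := by
      calc X.b ^ (c + G0) * ((PB.card : ℝ) * 9)
          = X.b ^ (c + G0) * 16 * ((PB.card : ℝ) * (9 / 16)) := by ring
        _ ≤ X.b ^ (c + G0) * X.b * ((PB.card : ℝ) * (9 / 16)) := by
            apply mul_le_mul_of_nonneg_right _ (by positivity)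
            exact mul_le_mul_of_nonneg_left hb16 hB0.le
        _ ≤ X.n := k3
        _ ≤ X.b ^ (c + G0) * (P.card : ℝ) := hPmany
    have k5 := le_of_mul_le_mul_left k4 hB0
    have : (0 : ℝ) ≤ (PB.card : ℝ) := Nat.cast_nonneg _
    linarith
  have hPGmany : (P.card : ℝ) / 2 ≤ (PG.card : ℝ) := by
    have e : PG.card + PB.card = P.card := card_filter_add_card_filter_not _
    have e' : (PG.card : ℝ) + (PB.card : ℝ) = (P.card : ℝ) := by exact_mod_cast e
    linarith
  -- the new set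
  set E'' := (E1 ∪ E2).filter (fun i => X.a i ∈ PG ∧ ra (X.a i) ≤ X.rho z i) with hE''
  have hE''sub : E'' ⊆ E1 ∪ E2 := filter_subset _ _
  refine ⟨E'', hE''sub.trans (union_subset h1' h2'), ?_, ?_⟩
  · -- cardinality
    have hper : ∀ p ∈ PG, X.N ≤ 4 * (A * X.n) * ((on X.a E'' p).card : ℝ) := by
      intro p hp
      have hpP : p ∈ P := (mem_filter.1 hp).1
      obtain ⟨q1, q2⟩ := hPmem p hpP
      rcases le_total (X.rho z (iq E1 p)) (X.rho z (iq E2 p)) with hle | hle
      · have hr : ra p = X.rho z (iq E2 p) := max_eq_right hle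
        obtain ⟨_, hb1, _⟩ := hiq E2 p (hne E2 p q2)
        have hs : ((on X.a E2 p).filter (fun i => X.rho z (iq E2 p) ≤ X.rho z i)).card ≤
            (on X.a E'' p).card := by
          apply card_le_card
          intro i hi
          rw [mem_filter, mem_on] at hi
          rw [mem_on, hE'', mem_filter, hi.1.2]
          refine ⟨⟨mem_union_right _ hi.1.1, hp, ?_⟩, rfl⟩
          rw [hr]
          exact hi.2
        have hs' : (((on X.a E2 p).filter (fun i => X.rho z (iq E2 p) ≤ X.rho z i)).card : ℝ) ≤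
            ((on X.a E'' p).card : ℝ) := by exact_mod_cast hs
        have : ((on X.a E2 p).card : ℝ) ≤ 4 * ((on X.a E'' p).card : ℝ) := by linarith
        calc X.N ≤ A * X.n * ((on X.a E2 p).card : ℝ) := q2
          _ ≤ A * X.n * (4 * ((on X.a E'' p).card : ℝ)) :=
              mul_le_mul_of_nonneg_left this (by positivity)
          _ = _ := by ring
      · have hr : ra p = X.rho z (iq E1 p) := max_eq_left hle
        obtain ⟨_, hb1, _⟩ := hiq E1 p (hne E1 p q1)
        have hs : ((on X.a E1 p).filter (fun i => X.rho z (iq E1 p) ≤ X.rho z i)).card ≤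
            (on X.a E'' p).card := by
          apply card_le_card
          intro i hi
          rw [mem_filter, mem_on] at hi
          rw [mem_on, hE'', mem_filter, hi.1.2]
          refine ⟨⟨mem_union_left _ hi.1.1, hp, ?_⟩, rfl⟩
          rw [hr]
          exact hi.2
        have hs' : (((on X.a E1 p).filter (fun i => X.rho z (iq E1 p) ≤ X.rho z i)).card : ℝ) ≤
            ((on X.a E'' p).card : ℝ) := by exact_mod_cast hs
        have : ((on X.a E1 p).card : ℝ) ≤ 4 * ((on X.a E'' p).card : ℝ) := by linarith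
        calc X.N ≤ A * X.n * ((on X.a E1 p).card : ℝ) := q1
          _ ≤ A * X.n * (4 * ((on X.a E'' p).card : ℝ)) :=
              mul_le_mul_of_nonneg_left this (by positivity)
          _ = _ := by ring
    have hsum : (PG.card : ℝ) * X.N ≤ 4 * (A * X.n) * (E''.card : ℝ) := by
      have e1 : (∑ p ∈ PG, (on X.a E'' p).card) ≤ E''.card := by
        rw [← card_biUnion]
        · apply card_le_card
          intro i hi
          rw [mem_biUnion] at hi
          obtain ⟨p, _, hi⟩ := hi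
          exact (mem_on.1 hi).1
        · intro p _ p' _ hpp
          rw [Function.onFun, disjoint_left]
          intro i hi hi'
          exact hpp ((mem_on.1 hi).2.symm.trans (mem_on.1 hi').2)
      have e1' : (∑ p ∈ PG, ((on X.a E'' p).card : ℝ)) ≤ (E''.card : ℝ) := by exact_mod_cast e1
      calc (PG.card : ℝ) * X.N = ∑ p ∈ PG, X.N := by rw [Finset.sum_const, nsmul_eq_mul]
        _ ≤ ∑ p ∈ PG, 4 * (A * X.n) * ((on X.a E'' p).card : ℝ) := Finset.sum_le_sum hper
        _ = 4 * (A * X.n) * ∑ p ∈ PG, ((on X.a E'' p).card : ℝ) := by rw [Finset.mul_sum]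
        _ ≤ _ := mul_le_mul_of_nonneg_left e1' (by positivity)
    have k1 : X.n * X.N ≤ X.n * (X.b ^ (2 * c + G0 + 1) * (E''.card : ℝ)) := by
      calc X.n * X.N ≤ X.b ^ (c + G0) * (P.card : ℝ) * X.N :=
            mul_le_mul_of_nonneg_right hPmany hNpos.le
        _ ≤ X.b ^ (c + G0) * (2 * (PG.card : ℝ)) * X.N := by
            apply mul_le_mul_of_nonneg_right _ hNpos.le
            apply mul_le_mul_of_nonneg_left _ (by positivity)
            linarith
        _ = 2 * X.b ^ (c + G0) * ((PG.card : ℝ) * X.N) := by ring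
        _ ≤ 2 * X.b ^ (c + G0) * (4 * (A * X.n) * (E''.card : ℝ)) :=
            mul_le_mul_of_nonneg_left hsum (by positivity)
        _ = X.n * ((X.b ^ (c + G0) * A * 8) * (E''.card : ℝ)) := by ring
        _ ≤ X.n * ((X.b ^ (c + G0) * A * X.b) * (E''.card : ℝ)) := by
            apply mul_le_mul_of_nonneg_left _ hn0
            apply mul_le_mul_of_nonneg_right _ (Nat.cast_nonneg _)
            apply mul_le_mul_of_nonneg_left _ (by positivity)
            linarith [hX.b16]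
        _ = X.n * (X.b ^ (2 * c + G0 + 1) * (E''.card : ℝ)) := by
            rw [hA]
            ring
    exact le_of_mul_le_mul_left k1 hnpos
  · -- the lower radius
    refine ⟨fun p => 3 * X.Q * ra p, fun i hi => ?_⟩
    have hi' := mem_filter.1 hi
    have hiE : i ∈ X.E := hE12 hi'.1
    have hpP : X.a i ∈ P := (mem_filter.1 hi'.2.1).1
    obtain ⟨q1, q2⟩ := hPmem _ hpP
    have hQ := hX.Q1
    have hrapos : 0 < ra (X.a i) := by
      have h0 := (hiq E1 (X.a i) (hne E1 _ q1)).1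
      exact lt_of_lt_of_le (hX.rpos z hz1 hzm _ (h1 (mem_on.1 h0).1)) (le_max_left _ _)
    refine ⟨by positivity, ?_, ?_⟩
    · exact mul_le_mul_of_nonneg_left hi'.2.2 (by positivity)
    · obtain ⟨j1, hj1, j2, hj2, hr1, hr2, hL⟩ := (mem_filter.1 hi'.2.1).2
      refine hL.trans ?_
      apply mul_le_mul_of_nonneg_left _ (by positivity)
      have : (X.Nn z j1 ∩ X.Nn z j2).card ≤ massE X E'' (X.a i) (3 * X.Q * ra (X.a i)) := by
        unfold massE
        apply card_le_card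
        intro r hr
        rw [mem_inter] at hr
        rw [mem_filter]
        refine ⟨hX.nsub z hz1 hzm j1 (h1 (mem_on.1 hj1).1) hr.1, fun k hk => ?_⟩
        have hk' : k ∈ E1 ∪ E2 := hE''sub hk
        have hkE := hE12 hk'
        have hak : X.a j1 = X.a i := (mem_on.1 hj1).2
        have hlh := hX.lohi k hkE
        have e1 := root_near hX h1 h2 hrp hz1 hzm (mem_on.1 hj1).1 (mem_on.1 hj2).1
          (hak.trans (mem_on.1 hj2).2.symm) hr.1 hr.2 hr1 hr2 hk' (le_refl (X.lo k)) hlh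
        have e2 := root_near hX h1 h2 hrp hz1 hzm (mem_on.1 hj1).1 (mem_on.1 hj2).1
          (hak.trans (mem_on.1 hj2).2.symm) hr.1 hr.2 hr1 hr2 hk' hlh (le_refl (X.hi k))
        rw [hak] at e1 e2
        exact ⟨e1, e2⟩
      exact_mod_cast this

end Pool.Agent.Work.MP_e17eac_co.HSR
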