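import Pool.Agent.Work.MP_e17eac_co.HSR.Defs

/-!
# Radii: quantiles, linear functions, the step
-/

set_option linter.unusedSectionVars false

namespace Pool.Agent.Work.MP_e17eac_co.HSR

open Finset

theorem quant (S : Finset ℕ) (f : ℕ → ℝ) (κ : ℝ) (hκ : 0 < κ) (hκ1 : κ ≤ 1)
    (hS : S.Nonempty) :
    ∃ i0 ∈ S, κ * (S.card : ℝ) ≤ ((S.filter (fun i => f i0 ≤ f i)).card : ℝ) ∧
      ((S.filter (fun i => f i0 < f i)).card : ℝ) ≤ κ * (S.card : ℝ) := by
  classical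
  have hc : (0 : ℝ) < (S.card : ℝ) := by exact_mod_cast hS.card_pos
  set T := S.filter (fun j => κ * (S.card : ℝ) ≤ ((S.filter (fun i => f j ≤ f i)).card : ℝ))
    with hT
  obtain ⟨j0, hj0, hmin⟩ := S.exists_min_image f hS
  have hTne : T.Nonempty := by
    refine ⟨j0, ?_⟩
    rw [hT, mem_filter]
    refine ⟨hj0, ?_⟩
    have : S.filter (fun i => f j0 ≤ f i) = S := by
      apply filter_true_of_mem
      intro i hi
      exact hmin i hi
    rw [this]
    nlinarith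
  obtain ⟨i0, hi0, hmax⟩ := T.exists_max_image f hTne
  rw [hT, mem_filter] at hi0
  refine ⟨i0, hi0.1, hi0.2, ?_⟩
  by_cases he : (S.filter (fun i => f i0 < f i)).Nonempty
  · obtain ⟨j, hj, hjmin⟩ := (S.filter (fun i => f i0 < f i)).exists_min_image f he
    have hj' := mem_filter.1 hj
    by_contra hcon
    push Not at hcon
    have hjT : j ∈ T := by
      rw [hT, mem_filter]
      refine ⟨hj'.1, le_trans hcon.le ?_⟩
      have : (S.filter (fun i => f i0 < f i)).card ≤ (S.filter (fun i => f j ≤ f i)).card := by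
        apply card_le_card
        intro i hi
        rw [mem_filter] at hi ⊢
        exact ⟨hi.1, hjmin i (mem_filter.2 hi)⟩
      exact_mod_cast this
    have := hmax j hjT
    linarith [hj'.2]
  · rw [not_nonempty_iff_eq_empty] at he
    rw [he]
    simp only [card_empty, Nat.cast_zero]
    positivity

theorem lin_bd {α β t1 t2 t g Q M : ℝ} (hg : 0 < g) (hQ : 1 ≤ Q) (h12 : g ≤ t2 - t1)
    (h1 : |α + β * t1| ≤ M) (h2 : |α + β * t2| ≤ M) (ht : |t - t1| ≤ Q * g) :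
    |α + β * t| ≤ 3 * Q * M := by
  have hM : 0 ≤ M := le_trans (abs_nonneg _) h1
  have hb : |β| * (t2 - t1) ≤ 2 * M := by
    have e1 : β * (t2 - t1) = (α + β * t2) - (α + β * t1) := by ring
    have e2 : |β| * (t2 - t1) = |β * (t2 - t1)| := by
      rw [abs_mul, abs_of_nonneg (by linarith : (0 : ℝ) ≤ t2 - t1)]
    rw [e2, e1]
    calc |(α + β * t2) - (α + β * t1)| ≤ |α + β * t2| + |α + β * t1| := abs_sub _ _
      _ ≤ 2 * M := by linarith
  have hbg : |β| * g ≤ 2 * M := le_trans (by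
    apply mul_le_mul_of_nonneg_left h12 (abs_nonneg _)) hb
  have h3 : |β * (t - t1)| ≤ Q * (2 * M) := by
    rw [abs_mul]
    calc |β| * |t - t1| ≤ |β| * (Q * g) := mul_le_mul_of_nonneg_left ht (abs_nonneg _)
      _ = Q * (|β| * g) := by ring
      _ ≤ Q * (2 * M) := mul_le_mul_of_nonneg_left hbg (by linarith)
  have e : α + β * t = (α + β * t1) + β * (t - t1) := by ring
  rw [e]
  calc |(α + β * t1) + β * (t - t1)| ≤ |α + β * t1| + |β * (t - t1)| := abs_add_le _ _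
    _ ≤ M + Q * (2 * M) := add_le_add h1 h3
    _ ≤ 3 * Q * M := by nlinarith

variable {ι : Type} [Fintype ι] [DecidableEq ι]

theorem mem_on {a : ℕ → ι} {E : Finset ℕ} {p : ι} {i : ℕ} :
    i ∈ on a E p ↔ i ∈ E ∧ a i = p := by
  unfold on
  rw [mem_filter]

theorem on_mono {a : ℕ → ι} {E E' : Finset ℕ} (h : E ⊆ E') (p : ι) :
    on a E p ⊆ on a E' p := by
  unfold on
  exact filter_subset_filter _ h

/-- Distance bound from a root pair. -/
theorem root_near {cR cL : ℕ → ℕ} {G0 m G : ℕ} {X : Dat ι} (hX : Inp cR cL G0 m G X)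
    {E1 E2 : Finset ℕ} (h1 : E1 ⊆ X.E) (h2 : E2 ⊆ X.E) (hrp : RP X E1 E2) {z i j : ℕ}
    (hz1 : 1 ≤ z) (hzm : z ≤ m) (hi : i ∈ E1) (hj : j ∈ E2) (hij : X.a i = X.a j) {r : ι}
    (hr1 : r ∈ X.Nn z i) (hr2 : r ∈ X.Nn z j) {M : ℝ} (hM1 : X.rho z i ≤ M)
    (hM2 : X.rho z j ≤ M) {k : ℕ} (hk : k ∈ E1 ∪ E2) {t : ℝ} (ht : X.lo k ≤ t)
    (ht' : t ≤ X.hi k) : |X.ht r t - X.ht (X.a i) t| ≤ 3 * X.Q * M := by
  have hiE := h1 hi
  have hjE := h2 hj
  have hhi := hX.hull z hz1 hzm i hiE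
  have hhj := hX.hull z hz1 hzm j hjE
  have hn1 := hX.near z hz1 hzm i hiE r hr1 (X.h0 z i) le_rfl hhi.2.1
  have hn2 := hX.near z hz1 hzm j hjE r hr2 (X.h0 z j) le_rfl hhj.2.1
  obtain ⟨α, β, hr⟩ := hX.aff r
  obtain ⟨α', β', hp⟩ := hX.aff (X.a i)
  have e : ∀ s, X.ht r s - X.ht (X.a i) s = (α - α') + (β - β') * s := by
    intro s
    rw [hr, hp]
    ring
  rw [← hij] at hn2
  rw [e] at hn1 hn2 ⊢
  have hg : 0 < X.lo j - X.hi i := by
    have := hrp.1 i hi j hj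
    linarith
  refine lin_bd hg hX.Q1 (t1 := X.h0 z i) (t2 := X.h0 z j) ?_ (hn1.trans hM1) (hn2.trans hM2) ?_
  · have : X.h0 z i ≤ X.hi i := hhi.2.1.trans hhi.2.2
    linarith [hhj.1]
  · have hi1 : X.h0 z i ≤ X.hi i := hhi.2.1.trans hhi.2.2
    have hjj := hX.lohi j hjE
    rcases mem_union.1 hk with hk1 | hk2
    · have a1 := hrp.2 i hi k hk1 j hj j hj
      have a2 := hrp.2 i hi i hi j hj j hj
      have a3 := hrp.1 k hk1 j hj
      rw [abs_le]
      constructor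
      · linarith
      · linarith [hhi.1]
    · have a1 := hrp.2 i hi i hi j hj k hk2
      have a3 := hrp.1 i hi k hk2
      rw [abs_le]
      constructor
      · linarith
      · linarith [hhi.1]

open Classical in
/-- Number of tame lines at distance at most `s` from `p` at all end points of the edges
of `E'`. -/
noncomputable def massE (X : Dat ι) (E' : Finset ℕ) (p : ι) (s : ℝ) : ℕ :=
  (X.P0.filter (fun r => ∀ k ∈ E', |X.ht r (X.lo k) - X.ht p (X.lo k)| ≤ s ∧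
    |X.ht r (X.hi k) - X.ht p (X.hi k)| ≤ s)).card

theorem massE_mono {X : Dat ι} {E' E'' : Finset ℕ} (h : E'' ⊆ E') (p : ι) (s : ℝ) :
    massE X E' p s ≤ massE X E'' p s := by
  classical
  unfold massE
  apply card_le_card
  intro r hr
  rw [mem_filter] at hr ⊢
  exact ⟨hr.1, fun k hk => hr.2 k (h hk)⟩

/-- The lower radius of level `z` exists on `E'`. -/
def Low (X : Dat ι) (z : ℕ) (E' : Finset ℕ) (C : ℕ) : Prop :=
  ∃ rm : ι → ℝ, ∀ i ∈ E', 0 < rm (X.a i) ∧ rm (X.a i) ≤ 3 * X.Q * X.rho z i ∧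
    X.L z ≤ X.b ^ C * (massE X E' (X.a i) (rm (X.a i)) : ℝ)

theorem Low.mono {X : Dat ι} {z : ℕ} {E' E'' : Finset ℕ} {C C' : ℕ} (h : Low X z E' C)
    (hb : 1 ≤ X.b) (hE : E'' ⊆ E') (hC : C ≤ C') : Low X z E'' C' := by
  obtain ⟨rm, hrm⟩ := h
  refine ⟨rm, fun i hi => ?_⟩
  obtain ⟨h1, h2, h3⟩ := hrm i (hE hi)
  refine ⟨h1, h2, h3.trans ?_⟩
  have e1 : X.b ^ C ≤ X.b ^ C' := pow_le_pow_right₀ hb hC
  have e2 : (massE X E' (X.a i) (rm (X.a i)) : ℝ) ≤ (massE X E'' (X.a i) (rm (X.a i)) : ℝ) := by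
    have := massE_mono (X := X) hE (X.a i) (rm (X.a i))
    exact_mod_cast this
  exact mul_le_mul e1 e2 (by positivity) (by positivity)

theorem Inp.mono {cR cL : ℕ → ℕ} {G0 m G G' : ℕ} {X : Dat ι} (h : Inp cR cL G0 m G X)
    (hG : G' ≤ G) : Inp cR cL G0 m G' X where
  b16 := h.b16
  bm := h.bm
  Q1 := h.Q1
  Th1 := h.Th1
  N0 := h.N0
  card := h.card
  dens := h.dens
  deg := h.deg
  aff := h.aff
  hull := h.hull
  lohi := h.lohi
  rpos := h.rpos
  nsub := h.nsub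
  near := h.near
  body := h.body
  root := fun g hg => h.root g (hg.trans hG)
  lb := fun g hg => h.lb g (hg.trans hG)
  p2 := fun g hg => h.p2 g (hg.trans hG)

/-- Number of edges as a sum over the lines. -/
theorem card_on (a : ℕ → ι) (E : Finset ℕ) :
    E.card = ∑ p ∈ E.image a, (on a E p).card := by
  classical
  unfold on
  exact card_eq_sum_card_image a E

/-- Many lines. -/
theorem lines_many {cR cL : ℕ → ℕ} {G0 m G : ℕ} {X : Dat ι} (hX : Inp cR cL G0 m G X)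
    {F : Finset ℕ} (hF : F ⊆ X.E) {c : ℕ} (hc : X.N ≤ X.b ^ c * (F.card : ℝ)) :
    X.n ≤ X.b ^ (c + G0) * ((F.image X.a).card : ℝ) := by
  have hb : (0 : ℝ) < X.b := lt_of_lt_of_le (by norm_num) hX.b16
  have h1 : (F.card : ℝ) * X.n ≤ ((F.image X.a).card : ℝ) * (X.b ^ G0 * X.N) := by
    rw [card_on X.a F]
    push_cast
    rw [Finset.sum_mul]
    calc ∑ p ∈ F.image X.a, ((on X.a F p).card : ℝ) * X.n
        ≤ ∑ p ∈ F.image X.a, (X.b ^ G0 * X.N) := by
          apply Finset.sum_le_sum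
          intro p _
          have hn : (0 : ℝ) ≤ X.n := le_trans (Nat.cast_nonneg _) hX.card
          refine le_trans ?_ (hX.deg p)
          apply mul_le_mul_of_nonneg_right _ hn
          exact_mod_cast card_le_card (on_mono hF p)
      _ = ((F.image X.a).card : ℝ) * (X.b ^ G0 * X.N) := by
          rw [Finset.sum_const, nsmul_eq_mul]
  have hn : (0 : ℝ) ≤ X.n := le_trans (Nat.cast_nonneg _) hX.card
  have h2 : X.N * X.n ≤ X.b ^ c * ((F.card : ℝ) * X.n) := by nlinarith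
  have h3 : X.N * X.n ≤ X.N * (X.b ^ (c + G0) * ((F.image X.a).card : ℝ)) := by
    calc X.N * X.n ≤ X.b ^ c * ((F.card : ℝ) * X.n) := h2
      _ ≤ X.b ^ c * (((F.image X.a).card : ℝ) * (X.b ^ G0 * X.N)) :=
          mul_le_mul_of_nonneg_left h1 (by positivity)
      _ = X.N * (X.b ^ (c + G0) * ((F.image X.a).card : ℝ)) := by rw [pow_add]; ring
  exact le_of_mul_le_mul_left h3 hX.N0

end Pool.Agent.Work.MP_e17eac_co.HSR
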